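import Pool.Agent.Y882.MQ.Two

/-!
# Almost primes `2 k p + 1` with a very small prime `k`, for almost all primes `p`

The question asks for a `k < 2 (p + 1)` such that `2 k p + 1` is prime.  Here: for every `θ > 0`
there are many primes `k < 2 p ^ θ` such that `2 k p + 1` has at most three prime factors, all of
them larger than a fixed power of `p`, for all primes `p ≤ X` with at most `X ^ (1 - θ + ε)`
exceptions.
-/

set_option autoImplicit false

open Finset Filter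

namespace Pool.Agent.Results.MP_2f88e5_nt.AlmostAllPrimesSmallK

open Classical in
/-- The number of the primes `k < 2 (p + 1)` with `p ∤ k` and `p ^ θ / 4 < k < 2 p ^ θ` such that
`2 k p + 1` has at most `r` prime factors (counted with multiplicity), all at least `p ^ ζ / 2`. -/
noncomputable def smallK (r : ℕ) (θ ζ : ℝ) (p : ℕ) : ℕ :=
  ((range (2 * (p + 1))).filter (fun k : ℕ => k.Prime ∧ ¬ p ∣ k ∧
    (p : ℝ) ^ θ / 4 < k ∧ (k : ℝ) < 2 * (p : ℝ) ^ θ ∧
    (2 * k * p + 1).primeFactorsList.length ≤ r ∧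
    ∀ l : ℕ, l.Prime → l ∣ 2 * k * p + 1 → (p : ℝ) ^ ζ / 2 ≤ l)).card

open Classical in
/-- **Small `k` for almost all primes.** Let `0 < θ < 1`, `1 / 2 ≤ τ < 1` and
`25 (1 + θ) < (24 r - 3) τ` (for instance `r = 3`, `τ = 1 / 2`, `θ < 0.38`).  For all primes
`p ≤ X` with at most `C X ^ (2 τ - θ + ε)` exceptions there are at least `δ p ^ θ / (log p) ^ 2`
primes `k < 2 p ^ θ` such that `2 k p + 1` has at most `r` prime factors, all of them at least
`p ^ (τ / 4) / 2`. -/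
theorem result (r : ℕ) (θ τ ε : ℝ) (hr : 25 * (1 + θ) < (24 * r - 3) * τ) (hτ2 : 1 / 2 ≤ τ)
    (hτ : τ < 1) (hθ0 : 0 < θ) (hθ1 : θ < 1) (hε : 0 < ε) :
    ∃ δ C : ℝ, 0 < δ ∧ 0 < C ∧ ∀ X : ℕ, 1 ≤ X →
      (((Icc 1 X).filter (fun p : ℕ => p.Prime ∧ (smallK r θ (τ / 4) p : ℝ) <
          δ * ((p : ℝ) ^ θ / Real.log p ^ 2))).card : ℝ) ≤
      C * (X : ℝ) ^ (2 * τ - θ + ε) :=
  Pool.Agent.Y882.MQ.twoKP r θ τ ε hr hτ2 hτ hθ0 hθ1 hε

end Pool.Agent.Results.MP_2f88e5_nt.AlmostAllPrimesSmallK
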