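import Pool.Agent.Y987.SZ.Gen4

set_option autoImplicit false

/-!
# Almost primes `2 k p + 1` with small `k`, and progressions of such `k`
-/

namespace Pool.Agent.Results.MP_2f88e5_nt.AlmostPrimeProgressions

/-- `k` is admissible for `p`: `1 ≤ k < 2 (p + 1)` and `p ∤ k`. -/
def Admissible (p k : ℕ) : Prop := 1 ≤ k ∧ k < 2 * (p + 1) ∧ ¬ p ∣ k

/-- `m` has at most four prime factors (with multiplicity), all larger than `p ^ (12 / 25)`. -/
def P4 (p m : ℕ) : Prop :=
  m.primeFactorsList.length ≤ 4 ∧ ∀ q : ℕ, q.Prime → q ∣ m → (p : ℝ) ^ (12 / 25 : ℝ) < q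

/-- `k` is a term of a progression of `t` terms of `S` with a difference `d`, `1 ≤ d ≤ L`. -/
def InProgression (t : ℕ) (L : ℝ) (S : Set ℕ) (k : ℕ) : Prop :=
  ∃ a d : ℕ, 1 ≤ d ∧ (d : ℝ) ≤ L ∧ (∀ j < t, a + j * d ∈ S) ∧ ∃ j < t, k = a + j * d

open Finset Filter
open Pool.Agent.Y987.SZ
open Pool.Agent.Y843.HS (Pr)

lemma adm_fin (p : ℕ) (S : Set ℕ) (hS : ∀ k ∈ S, Admissible p k) : S.Finite :=
  (Set.finite_Icc 0 (2 * (p + 1))).subset (fun k hk => ⟨Nat.zero_le _, (hS k hk).2.1.le⟩)

lemma key (t : ℕ) (κ ε : ℝ) (hκ : 0 < κ) (hε : 0 < ε) : ∃ B n₀ : ℕ, ∀ p : ℕ, n₀ ≤ p → p.Prime →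
    ∀ S : Set ℕ, (∀ k ∈ S, Admissible p k ∧ ∀ q : ℕ, q.Prime → q ∣ 2 * k * p + 1 → (p : ℝ) ^ κ < q) →
      ({k ∈ S | ¬ InProgression (t + 1) (Real.log p ^ B) S k}.ncard : ℝ) ≤
        ε * (p / Real.log p) := by
  classical
  obtain ⟨B, X₁, h⟩ := her1 (t + 1) (by omega) (min κ 1 / 2) (ε / 3) (by positivity)
    (by have := min_le_right κ 1; linarith) (by positivity)
  refine ⟨2 * B, max X₁ 8, ?_⟩
  intro p hn hpp S hS
  have hn8 : 8 ≤ p := (le_max_right _ _).trans hn
  have hnr : (8 : ℝ) ≤ p := by exact_mod_cast hn8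
  have hSfin : S.Finite := adm_fin p S (fun k hk => (hS k hk).1)
  have hlog2 : 2 ≤ Real.log p := by
    have h1 : Real.log 8 ≤ Real.log p := Real.log_le_log (by norm_num) hnr
    have h2 : Real.log 8 = 3 * Real.log 2 := by
      rw [show (8 : ℝ) = 2 ^ 3 by norm_num, Real.log_pow]
      norm_num
    have := Real.log_two_gt_d9
    linarith
  have hX2 : ((2 * p + 1 : ℕ) : ℝ) ≤ (p : ℝ) ^ 2 := by
    push_cast
    nlinarith
  have hlogX : Real.log ((2 * p + 1 : ℕ) : ℝ) ≤ Real.log p ^ 2 := by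
    have h2 := Real.log_le_log (by positivity) hX2
    rw [Real.log_pow] at h2
    push_cast at h2 ⊢
    nlinarith
  have hlogX0 : 0 ≤ Real.log ((2 * p + 1 : ℕ) : ℝ) := Real.log_nonneg (by
    push_cast
    linarith)
  -- the primes of the sieve are smaller than `p`
  have hκ2 : ((2 * p + 1 : ℕ) : ℝ) ^ (min κ 1 / 2) ≤ (p : ℝ) ^ (min κ 1) := by
    have e0 : 0 ≤ min κ 1 / 2 := by positivity
    calc ((2 * p + 1 : ℕ) : ℝ) ^ (min κ 1 / 2) ≤ ((p : ℝ) ^ 2) ^ (min κ 1 / 2) :=
          Real.rpow_le_rpow (by positivity) hX2 e0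
      _ = (p : ℝ) ^ (min κ 1) := by
          rw [← Real.rpow_natCast, ← Real.rpow_mul (by linarith)]
          congr 1
          push_cast
          ring
  have hsmall : ∀ q : ℕ, (q : ℝ) ≤ ((2 * p + 1 : ℕ) : ℝ) ^ (min κ 1 / 2) → q < p := by
    intro q hq
    have e1 : ((2 * p + 1 : ℕ) : ℝ) ^ (min κ 1 / 2) ≤ ((2 * p + 1 : ℕ) : ℝ) ^ (1 / 2 : ℝ) :=
      Real.rpow_le_rpow_of_exponent_le (by push_cast; linarith)
        (by have := min_le_right κ 1; linarith)
    have e2 : ((2 * p + 1 : ℕ) : ℝ) ^ (1 / 2 : ℝ) < p := by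
      rw [← Real.sqrt_eq_rpow, Real.sqrt_lt' (by linarith)]
      push_cast
      nlinarith
    have : (q : ℝ) < p := by linarith
    exact_mod_cast this
  have hcop : ∀ q : ℕ, q.Prime → 2 < q → q < p → (2 * p).Coprime q := by
    intro q hq h2 hqp
    rw [Nat.coprime_comm, Nat.Prime.coprime_iff_not_dvd hq]
    intro hd
    rcases (Nat.Prime.dvd_mul hq).1 hd with h' | h'
    · have := Nat.le_of_dvd (by norm_num) h'
      omega
    · rcases (Nat.dvd_prime hpp).1 h' with h'' | h''
      · rw [h''] at hq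
        exact Nat.not_prime_one hq
      · omega
  have h1 := h (2 * p + 1) 0 (by have := le_max_left X₁ 8; omega)
    (fun q => (range q).filter (fun j => q ∣ 1 + 2 * p * j))
    (by
      intro q hq hqx
      have hqp := hsmall q hqx
      by_cases h2 : q = 2
      · have : (range q).filter (fun j => q ∣ 1 + 2 * p * j) = ∅ := by
          apply filter_eq_empty_iff.2
          intro j _ hd
          rw [h2] at hd
          have : 2 ∣ 2 * p * j := ⟨p * j, by ring⟩
          omega
        refine ⟨?_, ?_, fun c hc => mem_range.1 (mem_filter.1 hc).1⟩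
        · show ((range q).filter (fun j => q ∣ 1 + 2 * p * j)).card ≤ 1
          rw [this]
          simp
        · show ((range q).filter (fun j => q ∣ 1 + 2 * p * j)).card < q
          rw [this]
          simpa using hq.pos
      · have h3 := Pool.Agent.Y829.one_root hq (hcop q hq (lt_of_le_of_ne hq.two_le (Ne.symm h2)) hqp) 1
        refine ⟨h3.le, ?_, ?_⟩
        · show ((range q).filter (fun j => q ∣ 1 + 2 * p * j)).card < q
          rw [h3]
          exact hq.one_lt
        · intro c hc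
          exact mem_range.1 (mem_filter.1 hc).1)
    (by
      intro q hq h2 hqx
      exact Pool.Agent.Y829.one_root hq (hcop q hq h2 (hsmall q hqx)) 1)
    hSfin.toFinset
    (by
      intro m hm
      rw [Set.Finite.mem_toFinset] at hm
      rw [Finset.mem_Ioc]
      have := (hS m hm).1
      unfold Admissible at this
      omega)
    (by
      intro m hm q hq hqx hmem
      rw [Set.Finite.mem_toFinset] at hm
      have h3 := (mem_filter.1 hmem).2
      have h4 : q ∣ 2 * m * p + 1 := by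
        have e1 : 2 * m * p + 1 = (1 + 2 * p * (m % q)) + q * (2 * p * (m / q)) := by
          calc 2 * m * p + 1 = 1 + 2 * p * m := by ring
            _ = 1 + 2 * p * (m % q + q * (m / q)) := by rw [Nat.mod_add_div]
            _ = _ := by ring
        rw [e1]
        exact dvd_add h3 (dvd_mul_right _ _)
      have h5 := (hS m hm).2 q hq h4
      have h6 : (p : ℝ) ^ (min κ 1) ≤ (p : ℝ) ^ κ :=
        Real.rpow_le_rpow_of_exponent_le (by linarith) (min_le_left _ _)
      linarith)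
  have h2 : ({m ∈ S | ¬ InProgression (t + 1) (Real.log p ^ (2 * B)) S m}.ncard : ℝ) ≤
      (Set.ncard {m | m ∈ hSfin.toFinset ∧
        ¬ InAP (t + 1) (Real.log ((2 * p + 1 : ℕ) : ℝ) ^ B) hSfin.toFinset m} : ℝ) := by
    rw [Nat.cast_le]
    apply Set.ncard_le_ncard
    · intro m hm
      refine ⟨(Set.Finite.mem_toFinset _).2 hm.1, ?_⟩
      intro hAP
      apply hm.2
      obtain ⟨a, d, i1, i2, i3, i4⟩ := hAP
      refine ⟨a, d, i1, i2.trans ?_, fun j hj => (Set.Finite.mem_toFinset _).1 (i3 j hj), i4⟩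
      rw [pow_mul]
      exact pow_le_pow_left₀ hlogX0 hlogX B
    · exact hSfin.subset (fun m hm => (Set.Finite.mem_toFinset _).1 hm.1)
  refine h2.trans (h1.trans ?_)
  have h3 : ((2 * p + 1 : ℕ) : ℝ) / Real.log ((2 * p + 1 : ℕ) : ℝ) ≤ 3 * (p / Real.log p) := by
    have e1 : Real.log p ≤ Real.log ((2 * p + 1 : ℕ) : ℝ) := Real.log_le_log (by linarith) (by
      push_cast
      linarith)
    have e2 : (0 : ℝ) < Real.log p := by linarith
    calc ((2 * p + 1 : ℕ) : ℝ) / Real.log ((2 * p + 1 : ℕ) : ℝ) ≤ ((2 * p + 1 : ℕ) : ℝ) / Real.log p :=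
          div_le_div_of_nonneg_left (by positivity) e2 e1
      _ ≤ (3 * p) / Real.log p := by
          apply div_le_div_of_nonneg_right _ e2.le
          push_cast
          linarith
      _ = 3 * (p / Real.log p) := by ring
  calc ε / 3 * (((2 * p + 1 : ℕ) : ℝ) / Real.log ((2 * p + 1 : ℕ) : ℝ)) ≤ ε / 3 * (3 * (p / Real.log p)) :=
        mul_le_mul_of_nonneg_left h3 (by positivity)
    _ = ε * (p / Real.log p) := by ring

lemma count : ∃ c : ℝ, 0 < c ∧ ∃ n₀ : ℕ, ∀ p : ℕ, n₀ ≤ p → p.Prime →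
    c * (p / Real.log p) ≤ ({k | Admissible p k ∧ P4 p (2 * k * p + 1)}.ncard : ℝ) := by
  classical
  obtain ⟨c, X₀, hc, hcnt⟩ := lin4
  have ht : Tendsto (fun X : ℕ => Real.log X / X) atTop (nhds 0) := by
    have := Real.isLittleO_log_id_atTop.tendsto_div_nhds_zero
    exact this.comp tendsto_natCast_atTop_atTop
  obtain ⟨X₁, hX₁⟩ := (ht.eventually_le_const (show (0 : ℝ) < c / 4 by positivity)).exists_forall_of_atTop
  refine ⟨c / 2, by positivity, max (max X₀ X₁) 8, ?_⟩
  intro p hn hpp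
  have hn8 : 8 ≤ p := (le_max_right _ _).trans hn
  have hnX0 : X₀ ≤ p := (le_max_left _ _).trans ((le_max_left _ _).trans hn)
  have hnX1 : X₁ ≤ p := (le_max_right _ _).trans ((le_max_left _ _).trans hn)
  have hnr : (8 : ℝ) ≤ p := by exact_mod_cast hn8
  have hlog : 0 < Real.log p := Real.log_pos (by linarith)
  set X := 2 * p + 1 with hX
  have hXr : (X : ℝ) = 2 * p + 1 := by rw [hX]; push_cast; ring
  have hy0 : (0 : ℝ) ≤ (X : ℝ) ^ (12 / 25 : ℝ) := by positivity
  have hylt : (X : ℝ) ^ (12 / 25 : ℝ) < p := by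
    have e1 : (X : ℝ) ^ (12 / 25 : ℝ) ≤ (X : ℝ) ^ (1 / 2 : ℝ) :=
      Real.rpow_le_rpow_of_exponent_le (by rw [hXr]; linarith) (by norm_num)
    have e2 : (X : ℝ) ^ (1 / 2 : ℝ) < p := by
      rw [← Real.sqrt_eq_rpow, Real.sqrt_lt' (by linarith), hXr]
      nlinarith
    linarith
  set P := (Pr 0 ⌊(X : ℝ) ^ (12 / 25 : ℝ)⌋₊).erase 2 with hP
  have hPm : ∀ q, q ∈ P ↔ q ≠ 2 ∧ q.Prime ∧ (q : ℝ) ≤ (X : ℝ) ^ (12 / 25 : ℝ) := by
    intro q
    rw [hP, mem_erase, mem_Pr0 hy0]
  set M := ∏ q ∈ P, q with hM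
  have hcopM : (2 * p).Coprime M := by
    rw [hM]
    apply Nat.Coprime.prod_right
    intro q hq
    obtain ⟨h2, hq1, hq2⟩ := (hPm q).1 hq
    rw [Nat.coprime_comm, Nat.Prime.coprime_iff_not_dvd hq1]
    intro hd
    rcases (Nat.Prime.dvd_mul hq1).1 hd with h' | h'
    · have := Nat.le_of_dvd (by norm_num) h'
      have := hq1.two_le
      omega
    · rcases (Nat.dvd_prime hpp).1 h' with h'' | h''
      · rw [h''] at hq1
        exact Nat.not_prime_one hq1
      · rw [h''] at hq2
        linarith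
  -- the inverse of `2 p`
  have hMpos : 0 < M := by
    rw [hM]
    exact prod_pos (fun q hq => ((hPm q).1 hq).2.1.pos)
  obtain ⟨u, hu⟩ : ∃ u : ℕ, (M : ℤ) ∣ 2 * p * u - 1 := by
    by_cases hM1 : 1 < M
    · obtain ⟨u, -, hu⟩ := Nat.exists_mul_mod_eq_one_of_coprime hcopM hM1
      refine ⟨u, ⟨((2 * p * u / M : ℕ) : ℤ), ?_⟩⟩
      have e1 := Nat.div_add_mod (2 * p * u) M
      rw [hu] at e1
      have e2 : (M : ℤ) * ((2 * p * u / M : ℕ) : ℤ) + 1 = 2 * p * u := by exact_mod_cast e1
      linarith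
    · have : M = 1 := by omega
      rw [this]
      exact ⟨0, by simp⟩
  have hdiv : ∀ q ∈ P, ∀ h : ℕ, q ∣ 2 * h * p + 1 → q ∣ u + h := by
    intro q hq h hd
    obtain ⟨h2, hq1, hq2⟩ := (hPm q).1 hq
    have hqM : q ∣ M := by
      rw [hM]
      exact dvd_prod_of_mem _ hq
    have hcq : (2 * p).Coprime q := Nat.Coprime.coprime_dvd_right hqM hcopM
    have e1 : q ∣ 2 * p * (u + h) := by
      have e2 : (q : ℤ) ∣ 2 * p * u - 1 := (Int.natCast_dvd_natCast.2 hqM).trans hu
      have e3 : (q : ℤ) ∣ 2 * h * p + 1 := by exact_mod_cast hd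
      have e5 := dvd_add e2 e3
      have e6 : (2 * (p : ℤ) * u - 1) + (2 * h * p + 1) = ((2 * p * (u + h) : ℕ) : ℤ) := by
        push_cast
        ring
      rw [e6] at e5
      exact_mod_cast e5
    exact (Nat.Coprime.dvd_mul_left (Nat.Coprime.symm hcq)).1 e1
  have hc1 := hcnt X u (by omega) P (fun q hq => ((hPm q).1 hq).2)
  -- from the window at `u` to the `k`
  set T : Set ℕ := {k | Admissible p k ∧ P4 p (2 * k * p + 1)} with hT
  have hTfin : T.Finite := adm_fin p T (fun k hk => hk.1)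
  have hle : ((Ioc u (u + X)).filter (fun m => ∀ q ∈ P, ¬ q ∣ m)).card ≤ T.ncard + 2 := by
    have hsub : (Ioc u (u + X)).filter (fun m => ∀ q ∈ P, ¬ q ∣ m) ⊆
        (hTfin.toFinset ∪ {p, 2 * p}).image (fun k => u + k) := by
      intro m hm
      rw [mem_filter, mem_Ioc] at hm
      obtain ⟨⟨h1, h2⟩, h3⟩ := hm
      rw [mem_image]
      refine ⟨m - u, ?_, by omega⟩
      rw [mem_union, mem_insert, mem_singleton, Set.Finite.mem_toFinset]
      by_cases hpm : p ∣ m - u
      · right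
        obtain ⟨s, hs⟩ := hpm
        have hs1 : s ≠ 0 := by
          rintro rfl
          omega
        have hs2 : s < 3 := by
          by_contra hcon
          push Not at hcon
          have : p * 3 ≤ p * s := Nat.mul_le_mul_left p hcon
          omega
        have : s = 1 ∨ s = 2 := by omega
        rcases this with rfl | rfl
        · left
          omega
        · right
          omega
      · left
        have hall : ∀ q : ℕ, q.Prime → q ∣ 2 * (m - u) * p + 1 → (X : ℝ) ^ (12 / 25 : ℝ) < q := by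
          intro q hq hd
          by_contra hcon
          push Not at hcon
          by_cases h2' : q = 2
          · rw [h2'] at hd
            have : 2 ∣ 2 * (m - u) * p := ⟨(m - u) * p, by ring⟩
            omega
          · have hqP : q ∈ P := (hPm q).2 ⟨h2', hq, hcon⟩
            have := hdiv q hqP (m - u) hd
            have e : u + (m - u) = m := by omega
            rw [e] at this
            exact h3 q hqP this
        refine ⟨⟨by omega, by omega, hpm⟩, ?_, ?_⟩
        · apply len4 (X := X) (by omega) (by omega) _ hall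
          have e1 : 2 * (m - u) * p + 1 ≤ X ^ 2 := by
            have : m - u ≤ 2 * p + 1 := by omega
            have e2 : 2 * (m - u) * p ≤ 2 * (2 * p + 1) * p :=
              Nat.mul_le_mul_right _ (Nat.mul_le_mul_left _ this)
            have e3 : X ^ 2 = 4 * p * p + 4 * p + 1 := by
              rw [hX]
              ring
            have e4 : 2 * (2 * p + 1) * p = 4 * p * p + 2 * p := by ring
            omega
          calc (2 * (m - u) * p + 1) ^ 5 ≤ (X ^ 2) ^ 5 := Nat.pow_le_pow_left e1 5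
            _ = X ^ 10 := by ring
            _ < X ^ 12 := Nat.pow_lt_pow_right (by omega) (by norm_num)
        · intro q hq hd
          refine lt_of_le_of_lt ?_ (hall q hq hd)
          apply Real.rpow_le_rpow (by positivity) _ (by norm_num)
          rw [hXr]
          linarith
    calc ((Ioc u (u + X)).filter (fun m => ∀ q ∈ P, ¬ q ∣ m)).card
        ≤ ((hTfin.toFinset ∪ {p, 2 * p}).image (fun k => u + k)).card := card_le_card hsub
      _ ≤ (hTfin.toFinset ∪ {p, 2 * p}).card := card_image_le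
      _ ≤ hTfin.toFinset.card + ({p, 2 * p} : Finset ℕ).card := card_union_le _ _
      _ ≤ T.ncard + 2 := by
          rw [Set.ncard_eq_toFinset_card T hTfin]
          have := card_le_two (a := p) (b := 2 * p)
          omega
  have hle' : (((Ioc u (u + X)).filter (fun m => ∀ q ∈ P, ¬ q ∣ m)).card : ℝ) ≤ T.ncard + 2 := by
    exact_mod_cast hle
  have e1 : (p : ℝ) / Real.log p ≤ X / Real.log X := by
    have e2 : Real.log X ≤ 2 * Real.log p := by
      have : (X : ℝ) ≤ (p : ℝ) ^ 2 := by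
        rw [hXr]
        nlinarith
      have := Real.log_le_log (by rw [hXr]; positivity) this
      rw [Real.log_pow] at this
      push_cast at this
      exact this
    have e3 : 0 < Real.log X := Real.log_pos (by rw [hXr]; linarith)
    rw [div_le_div_iff₀ hlog e3, hXr]
    rw [hXr] at e2
    nlinarith
  have e2 : 2 ≤ c / 2 * (p / Real.log p) := by
    have h1 := hX₁ p hnX1
    rw [div_le_iff₀ (by linarith)] at h1
    have h2 : c / 2 * (p / Real.log p) = (c / 2 * p) / Real.log p := by ring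
    rw [h2, le_div_iff₀ hlog]
    linarith
  have e3 : c * ((p : ℝ) / Real.log p) ≤ c * (X / Real.log X) := mul_le_mul_of_nonneg_left e1 hc.le
  linarith

/-- **Almost primes `2 k p + 1` with small `k`, and narrow progressions of such `k`.** -/
theorem result : ∃ c : ℝ, 0 < c ∧ ∀ t : ℕ, ∀ κ ε : ℝ, 0 < κ → 0 < ε → ∃ B p₀ : ℕ,
    ∀ p : ℕ, p₀ ≤ p → p.Prime →
      c * (p / Real.log p) ≤ ({k | Admissible p k ∧ P4 p (2 * k * p + 1)}.ncard : ℝ) ∧
      (∃ a d : ℕ, 1 ≤ d ∧ (d : ℝ) ≤ Real.log p ^ B ∧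
        ∀ j < t, Admissible p (a + j * d) ∧ P4 p (2 * (a + j * d) * p + 1)) ∧
      ∀ S : Set ℕ,
        (∀ k ∈ S, Admissible p k ∧ ∀ q : ℕ, q.Prime → q ∣ 2 * k * p + 1 → (p : ℝ) ^ κ < q) →
        ({k ∈ S | ¬ InProgression (t + 1) (Real.log p ^ B) S k}.ncard : ℝ) ≤
          ε * (p / Real.log p) := by
  obtain ⟨c, hc, n₁, hn₁⟩ := count
  refine ⟨c, hc, ?_⟩
  intro t κ ε hκ hε
  obtain ⟨B₁, n₂, h₂⟩ := key t κ ε hκ hε
  obtain ⟨B₂, n₃, h₃⟩ := key t (12 / 25) (c / 2) (by norm_num) (by positivity)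
  refine ⟨max B₁ B₂, max (max n₁ 3) (max n₂ n₃), ?_⟩
  intro n hn hpp
  have g1 : n₁ ≤ n := (le_max_left _ _).trans ((le_max_left _ _).trans hn)
  have g0 : 3 ≤ n := (le_max_right _ _).trans ((le_max_left _ _).trans hn)
  have g2 : n₂ ≤ n := (le_max_left _ _).trans ((le_max_right _ _).trans hn)
  have g3 : n₃ ≤ n := (le_max_right _ _).trans ((le_max_right _ _).trans hn)
  have hnr : (3 : ℝ) ≤ n := by exact_mod_cast g0
  have hlog1 : 1 ≤ Real.log n := by
    rw [Real.le_log_iff_exp_le (by linarith)]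
    have := Real.exp_one_lt_d9
    linarith
  have hB : ∀ B, B ≤ max B₁ B₂ → Real.log n ^ B ≤ Real.log n ^ max B₁ B₂ :=
    fun B hB => pow_le_pow_right₀ hlog1 hB
  have c1 := hn₁ n g1 hpp
  refine ⟨c1, ?_, ?_⟩
  · have c2 := h₃ n g3 hpp {k | Admissible n k ∧ P4 n (2 * k * n + 1)}
      (fun m hm => ⟨hm.1, hm.2.2⟩)
    have hpos : 0 < (n : ℝ) / Real.log n := by positivity
    obtain ⟨m, hm, hAP⟩ : ∃ m ∈ {k | Admissible n k ∧ P4 n (2 * k * n + 1)},
        InProgression (t + 1) (Real.log n ^ B₂) {k | Admissible n k ∧ P4 n (2 * k * n + 1)} m := by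
      by_contra hcon
      push Not at hcon
      have e1 : {m ∈ {k | Admissible n k ∧ P4 n (2 * k * n + 1)} | ¬ InProgression (t + 1)
          (Real.log n ^ B₂) {k | Admissible n k ∧ P4 n (2 * k * n + 1)} m} =
          {k | Admissible n k ∧ P4 n (2 * k * n + 1)} := by
        ext m
        constructor
        · intro h
          exact h.1
        · intro h
          exact ⟨h, hcon m h⟩
      rw [e1] at c2
      have : c * ((n : ℝ) / Real.log n) ≤ c / 2 * (n / Real.log n) := c1.trans c2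
      nlinarith
    obtain ⟨a, d, i1, i2, i3, _⟩ := hAP
    exact ⟨a, d, i1, i2.trans (hB _ (le_max_right _ _)), fun j hj => i3 j (by omega)⟩
  · intro S hS
    refine le_trans ?_ (h₂ n g2 hpp S hS)
    rw [Nat.cast_le]
    apply Set.ncard_le_ncard
    · intro m hm
      refine ⟨hm.1, ?_⟩
      intro hAP
      apply hm.2
      obtain ⟨a, d, i1, i2, i3⟩ := hAP
      exact ⟨a, d, i1, i2.trans (hB _ (le_max_left _ _)), i3⟩
    · exact (adm_fin n S (fun k hk => (hS k hk).1)).subset (fun m hm => hm.1)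

end Pool.Agent.Results.MP_2f88e5_nt.AlmostPrimeProgressions
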