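import Pool.Agent.Y879.PR.Tup
import Pool.Agent.Y879.GL.Pattern

set_option autoImplicit false

/-!
For EVERY large prime `p` the multipliers `k` themselves may be taken PRIME: the number of the primes `k` in
every long interval for which `2 k p + 1` is almost prime, and the Poisson law of the gaps at these `k`.
-/

namespace Pool.Agent.Results.MP_2f88e5_nt.PrimeMultipliers

open Finset Filter Polynomial
open Pool.Agent.Y879.AP Pool.Agent.Y879.GL Pool.Agent.Y879.PR Pool.Agent.W123.RP Pool.Agent.H373R2.T7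
open Pool.Agent.TH464.PO Pool.Agent.TH464.PW Pool.Agent.W123.RU.Poly

/-- neither `k` nor `2 k p + 1` has a prime factor `q ≤ p ^ (1 / r)` -/
def Good (p r k : ℕ) : Prop :=
  ∀ q : ℕ, q.Prime → (q : ℝ) ≤ (p : ℝ) ^ (1 / (r : ℝ)) → ¬ q ∣ k ∧ ¬ q ∣ 2 * k * p + 1

/-- `1` for `q = 2`, otherwise `2` -/
def nu (q : ℕ) : ℕ := if q = 2 then 1 else 2

/-- the density of the good numbers: `1 / 2` times the product of `1 - 2 / q` over the primes
`2 < q ≤ p ^ (1 / r)` -/
noncomputable def V (p r : ℕ) : ℝ :=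
  ∏ q ∈ (Icc 1 ⌊(p : ℝ) ^ (1 / (r : ℝ))⌋₊).filter Nat.Prime, (1 - (nu q : ℝ) / q)

/-- the product of `(1 - 2 / q) / (1 - 1 / q)` over the primes `2 < q ≤ p ^ (1 / r)` -/
noncomputable def W (p r : ℕ) : ℝ :=
  ∏ q ∈ (Icc 1 ⌊(p : ℝ) ^ (1 / (r : ℝ))⌋₊).filter Nat.Prime, (1 - (nu q : ℝ) / q) / (1 - 1 / (q : ℝ))

open Classical in
/-- the good PRIMES `k` in `(u, u + Y]` -/
noncomputable def Pr (p r u Y : ℕ) : Finset ℕ :=
  (Ioc u (u + Y)).filter (fun k => k.Prime ∧ Good p r k)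

open Classical in
/-- the number of the good numbers in `(k, k + T]` -/
noncomputable def Next (p r T k : ℕ) : ℕ := ((Ioc k (k + T)).filter (Good p r)).card

/-- the forms `k` and `2 p k + 1` -/
noncomputable def fm (p : ℕ) : Fin 2 → ℤ[X] := fun i => lf ((![1, 2 * (p : ℤ)] : Fin 2 → ℤ) i)
  ((![0, 1] : Fin 2 → ℤ) i)

lemma fm_Q (p q n : ℕ) : Q (fm p) q n ↔ q ∣ n ∨ q ∣ 2 * n * p + 1 := by
  unfold Q fm
  rw [Fin.exists_fin_two]
  simp only [lf_eval, Matrix.cons_val_zero, Matrix.cons_val_one]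
  have e1 : (1 : ℤ) * (n : ℤ) + 0 = ((n : ℕ) : ℤ) := by ring
  have e2 : 2 * (p : ℤ) * (n : ℤ) + 1 = ((2 * n * p + 1 : ℕ) : ℤ) := by push_cast; ring
  rw [e1, e2, Int.natCast_dvd_natCast, Int.natCast_dvd_natCast]

lemma good_iff (p r n : ℕ) : Good p r n ↔ Sf (Q (fm p)) ⌊(p : ℝ) ^ (1 / (r : ℝ))⌋₊ n := by
  have key : ∀ q : ℕ, (¬ Q (fm p) q n ↔ ¬ q ∣ n ∧ ¬ q ∣ 2 * n * p + 1) := by
    intro q
    rw [fm_Q, not_or]
  unfold Good Sf
  constructor
  · intro h q hq
    obtain ⟨hq1, hq2⟩ := mem_pz.1 hq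
    exact (key q).2 (h q hq2 ((Nat.le_floor_iff (by positivity)).1 hq1))
  · intro h q hq hqr
    exact (key q).1 (h q (mem_pz.2 ⟨Nat.le_floor hqr, hq⟩))

lemma goodf (p r : ℕ) : Good p r = Sf (Q (fm p)) ⌊(p : ℝ) ^ (1 / (r : ℝ))⌋₊ :=
  funext fun m => propext (good_iff p r m)

lemma pr_eq (p r u Y : ℕ) : Pr p r u Y = Om 1 0 (Q (fm p)) ⌊(p : ℝ) ^ (1 / (r : ℝ))⌋₊ u Y := by
  classical
  unfold Pr Om
  ext n
  simp only [Finset.mem_filter, good_iff, one_mul, add_zero]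

/-- the sifted classes -/
lemma nu_eq (p q : ℕ) (hp : p.Prime) (hq : q.Prime) (hqp : q < p) : nuB (Q (fm p)) q = nu q := by
  classical
  have h1 : nuB (Q (fm p)) q = ((range q).filter (fun x => q ∣ x ∨ q ∣ 2 * x * p + 1)).card := by
    unfold nuB
    exact card_iff _ _ (fun r _ => fm_Q p q r)
  rw [h1]
  unfold nu
  by_cases h2 : q = 2
  · rw [if_pos h2, h2]
    have h3 : (range 2).filter (fun x => 2 ∣ x ∨ 2 ∣ 2 * x * p + 1) = {0} := by
      ext x
      simp only [Finset.mem_filter, Finset.mem_range, Finset.mem_singleton]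
      constructor
      · rintro ⟨h4, h5 | h5⟩
        · omega
        · exfalso
          have h6 : 2 ∣ 2 * x * p := ⟨x * p, by ring⟩
          omega
      · rintro rfl
        exact ⟨by norm_num, Or.inl (dvd_zero _)⟩
    rw [h3, Finset.card_singleton]
  · rw [if_neg h2]
    have hq3 : 2 < q := by
      have := hq.two_le
      omega
    have hnd : ¬ q ∣ 2 * p := by
      intro hd
      rcases (hq.dvd_mul).1 hd with h4 | h4
      · have := Nat.le_of_dvd (by norm_num) h4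
        omega
      · have := (Nat.prime_dvd_prime_iff_eq hq hp).1 h4
        omega
    obtain ⟨x, hx⟩ := exists_root (2 * p) 1 q hq hnd
    have hx' : q ∣ 2 * (x % q) * p + 1 := by
      have h4 : 2 * p * (x % q) + 1 ≡ 2 * p * x + 1 [MOD q] :=
        Nat.ModEq.add_right _ (Nat.ModEq.mul_left _ (Nat.mod_modEq x q))
      have h5 := (Nat.modEq_zero_iff_dvd).1 (h4.trans ((Nat.modEq_zero_iff_dvd).2 hx))
      rwa [show 2 * (x % q) * p + 1 = 2 * p * (x % q) + 1 by ring]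
    have hx0 : x % q ≠ 0 := by
      intro h0
      rw [h0] at hx'
      have := Nat.le_of_dvd (by norm_num) (show q ∣ 1 by simpa using hx')
      omega
    have h3 : (range q).filter (fun y => q ∣ y ∨ q ∣ 2 * y * p + 1) = {0, x % q} := by
      ext y
      simp only [Finset.mem_filter, Finset.mem_range, Finset.mem_insert, Finset.mem_singleton]
      constructor
      · rintro ⟨h4, h5 | h5⟩
        · left
          exact Nat.eq_zero_of_dvd_of_lt h5 h4
        · right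
          have hcop : Nat.Coprime q (2 * p) := (Nat.Prime.coprime_iff_not_dvd hq).2 hnd
          have h6 : 2 * p * y + 1 ≡ 2 * p * (x % q) + 1 [MOD q] := by
            rw [show 2 * p * y + 1 = 2 * y * p + 1 by ring, show 2 * p * (x % q) + 1 = 2 * (x % q) * p + 1 by ring]
            exact ((Nat.modEq_zero_iff_dvd).2 h5).trans ((Nat.modEq_zero_iff_dvd).2 hx').symm
          have h7 : y ≡ x % q [MOD q] :=
            Nat.ModEq.cancel_left_of_coprime hcop (Nat.ModEq.add_right_cancel' _ h6)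
          exact Nat.ModEq.eq_of_lt_of_lt h7 h4 (Nat.mod_lt _ hq.pos)
      · rintro (rfl | rfl)
        · exact ⟨hq.pos, Or.inl (dvd_zero _)⟩
        · exact ⟨Nat.mod_lt _ hq.pos, Or.inr hx'⟩
    rw [h3, Finset.card_pair (Ne.symm hx0)]

lemma nu_pos (p q : ℕ) (hq : q.Prime) : 1 ≤ nuB (Q (fm p)) q := by
  refine nuB_pos_of _ q hq 0 (fun n => per (fm p) q n) ?_
  rw [fm_Q]
  exact Or.inl (dvd_zero _)

lemma us (p : ℕ) (hp : p.Prime) (hp2 : 2 < p) (H U : ℝ) (hH : 2 * (p : ℝ) ≤ H) : US 2 1 H U (fm p) := by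
  have hpr : (2 : ℝ) < p := by exact_mod_cast hp2
  unfold fm
  apply us_lf
  · intro i
    fin_cases i
    · show (1 : ℤ) ≠ 0
      norm_num
    · show (2 * (p : ℤ)) ≠ 0
      have : (2 : ℤ) < p := by exact_mod_cast hp2
      omega
  · intro i
    fin_cases i
    · exact isCoprime_one_left
    · exact isCoprime_one_right
  · intro i
    fin_cases i
    · show |((1 : ℤ) : ℝ)| ≤ H
      rw [Int.cast_one, abs_one]
      linarith
    · show |((2 * (p : ℤ) : ℤ) : ℝ)| ≤ H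
      push_cast
      rw [abs_of_pos (by linarith)]
      exact hH
  · intro i
    fin_cases i
    · show |((0 : ℤ) : ℝ)| ≤ H
      rw [Int.cast_zero, abs_zero]
      linarith
    · show |((1 : ℤ) : ℝ)| ≤ H
      rw [Int.cast_one, abs_one]
      linarith
  · intro q hq
    by_cases h2 : q ∣ 2 * p + 1
    · refine ⟨2, fun i hi => ?_⟩
      have h3 : q ≠ 2 := by
        intro h4
        rw [h4] at h2
        omega
      fin_cases i
      · change (q : ℤ) ∣ 1 * ((2 : ℕ) : ℤ) + 0 at hi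
        have h5 : q ∣ 2 := by
          have : (q : ℤ) ∣ ((2 : ℕ) : ℤ) := by simpa using hi
          exact_mod_cast this
        have := Nat.le_of_dvd (by norm_num) h5
        have := hq.two_le
        omega
      · change (q : ℤ) ∣ 2 * (p : ℤ) * ((2 : ℕ) : ℤ) + 1 at hi
        have h5 : q ∣ 4 * p + 1 := by
          have : (q : ℤ) ∣ ((4 * p + 1 : ℕ) : ℤ) := by
            push_cast
            rw [show 4 * (p : ℤ) + 1 = 2 * (p : ℤ) * ((2 : ℕ) : ℤ) + 1 by push_cast; ring]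
            exact hi
          exact_mod_cast this
        have h6 : q ∣ 2 * (2 * p + 1) := Dvd.dvd.mul_left h2 _
        have h7 : q ∣ 2 * (2 * p + 1) - (4 * p + 1) := Nat.dvd_sub h6 h5
        rw [show 2 * (2 * p + 1) - (4 * p + 1) = 1 by omega] at h7
        exact hq.one_lt.ne' (Nat.dvd_one.1 h7)
    · refine ⟨1, fun i hi => ?_⟩
      fin_cases i
      · change (q : ℤ) ∣ 1 * ((1 : ℕ) : ℤ) + 0 at hi
        have h5 : q ∣ 1 := by
          have : (q : ℤ) ∣ ((1 : ℕ) : ℤ) := by simpa using hi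
          exact_mod_cast this
        exact hq.one_lt.ne' (Nat.dvd_one.1 h5)
      · change (q : ℤ) ∣ 2 * (p : ℤ) * ((1 : ℕ) : ℤ) + 1 at hi
        apply h2
        have : (q : ℤ) ∣ ((2 * p + 1 : ℕ) : ℤ) := by
          push_cast
          simpa using hi
        exact_mod_cast this
  · intro i j t ht _
    have ht1 : (1 : ℤ) ≤ t := by exact_mod_cast ht
    have hp2z : (2 : ℤ) < p := by exact_mod_cast hp2
    fin_cases i <;> fin_cases j
    · show ¬ ((1 : ℤ) = 1 ∧ (0 : ℤ) = 0 + 1 * t) ∧ ¬ ((1 : ℤ) = -1 ∧ (0 : ℤ) = -(0 + 1 * t))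
      constructor <;> rintro ⟨_, h⟩ <;> omega
    · show ¬ ((1 : ℤ) = 2 * p ∧ (0 : ℤ) = 1 + 2 * p * t) ∧ ¬ ((1 : ℤ) = -(2 * p) ∧ (0 : ℤ) = -(1 + 2 * p * t))
      constructor <;> rintro ⟨h, _⟩ <;> omega
    · show ¬ ((2 * p : ℤ) = 1 ∧ (1 : ℤ) = 0 + 1 * t) ∧ ¬ ((2 * p : ℤ) = -1 ∧ (1 : ℤ) = -(0 + 1 * t))
      constructor <;> rintro ⟨h, _⟩ <;> omega
    · show ¬ ((2 * p : ℤ) = 2 * p ∧ (1 : ℤ) = 1 + 2 * p * t) ∧
        ¬ ((2 * p : ℤ) = -(2 * p) ∧ (1 : ℤ) = -(1 + 2 * p * t))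
      constructor
      · rintro ⟨_, h⟩
        have : (0 : ℤ) < 2 * p * t := by positivity
        omega
      · rintro ⟨h, _⟩
        omega

/-- **Prime multipliers for every prime.** For all `θ > 0`, `0 < δ ≤ 1`, `0 < ε ≤ 1` and `x₀` there is `r₀` such
that for every `r ≥ r₀` and EVERY large prime `p`: (1) if `k < 2 (p + 1)` is good, `k` has at most `r + 1` and
`2 k p + 1` at most `2 r + 1` prime factors; (2) every prime `k > p ^ (1 / r)` with `2 k p + 1` prime is good;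
(3) if `X ≥ p ^ θ`, `Y ≥ δ X` and `u + Y ≤ X`, then the number of the good PRIMES `k` in `(u, u + Y]` is
`(1 + η) Y W / log X`, `|η| ≤ ε`, and at these `k` the number of the good numbers in `(k, k + T]` has the
Poisson law of mean `T V`, up to `ε`, for all `T` with `T V ≤ x₀`. -/
theorem result (θ δ x₀ ε : ℝ) (hθ : 0 < θ) (hδ : 0 < δ) (hδ1 : δ ≤ 1) (hε : 0 < ε) (hε1 : ε ≤ 1) :
    ∃ r₀ : ℕ, ∀ r : ℕ, r₀ ≤ r → ∃ p₀ : ℕ, ∀ p : ℕ, p₀ ≤ p → p.Prime →
      (∀ k : ℕ, 0 < k → k < 2 * (p + 1) → Good p r k →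
        k.primeFactorsList.length ≤ r + 1 ∧ (2 * k * p + 1).primeFactorsList.length ≤ 2 * r + 1) ∧
      (∀ k : ℕ, k.Prime → (2 * k * p + 1).Prime → (p : ℝ) ^ (1 / (r : ℝ)) < k → Good p r k) ∧
      0 < W p r ∧ ∀ X u Y : ℕ, (p : ℝ) ^ θ ≤ X → δ * X ≤ Y → u + Y ≤ X →
        |((Pr p r u Y).card : ℝ) * Real.log X - Y * W p r| ≤ ε * (Y * W p r) ∧
        ∀ T : ℕ, T * V p r ≤ x₀ → ∀ B : Finset ℕ,
          |(((Pr p r u Y).filter (fun k => Next p r T k ∈ B)).card : ℝ) -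
            (Pr p r u Y).card * ∑ j ∈ B, Real.exp (-(T * V p r)) * (T * V p r) ^ j / j.factorial| ≤
            ε * (Pr p r u Y).card := by
  obtain ⟨r0, hr0, hlaw⟩ := prime_full 1 2 1 squarefree_one 2 1 θ δ two_pos one_pos hθ hδ hδ1 x₀ ε hε hε1
  refine ⟨r0, ?_⟩
  intro r hr
  have hr2 : 2 ≤ r := hr0.trans hr
  have hrr : (2 : ℝ) ≤ r := by exact_mod_cast hr2
  obtain ⟨C, hC, hV⟩ := V_up_base 1 one_pos r hr2
  have hz : ∀ᶠ p : ℕ in atTop, (9 : ℝ) < (p : ℝ) ^ (1 / (r : ℝ)) :=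
    ((tendsto_rpow_atTop (by positivity)).comp tendsto_natCast_atTop_atTop).eventually_gt_atTop _
  obtain ⟨p0, hp0⟩ := eventually_atTop.1 ((hlaw r hr C).and (hV.and (hz.and
    (Pool.Agent.Y879.GL.level_ok r hr2))))
  refine ⟨max p0 1000, ?_⟩
  intro p hp hpp
  have hpp0 : p0 ≤ p := (le_max_left _ _).trans hp
  have hp1000 : 1000 ≤ p := (le_max_right _ _).trans hp
  obtain ⟨h1, h2, h9, h3⟩ := hp0 p hpp0
  have hpr : (1000 : ℝ) ≤ p := by exact_mod_cast hp1000
  have hpow : ((p : ℝ) ^ (1 / (r : ℝ))) ^ r = p := by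
    rw [← Real.rpow_natCast, ← Real.rpow_mul (by linarith), one_div, inv_mul_cancel₀ (by linarith),
      Real.rpow_one]
  have hzp : (p : ℝ) ^ (1 / (r : ℝ)) < p := by
    calc (p : ℝ) ^ (1 / (r : ℝ)) < (p : ℝ) ^ (1 : ℝ) := by
          apply Real.rpow_lt_rpow_of_exponent_lt (by linarith)
          rw [div_lt_one (by linarith)]
          linarith
      _ = p := Real.rpow_one _
  have hus : US 2 1 ((p : ℝ) ^ (2 : ℝ)) ((p : ℝ) ^ (1 : ℝ)) (fm p) := by
    apply us p hpp (by omega)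
    rw [Real.rpow_two]
    have := mul_le_mul_of_nonneg_right (show (2 : ℝ) ≤ p by linarith) (show (0 : ℝ) ≤ p by linarith)
    linarith [sq (p : ℝ)]
  have hVq : V p r = Vq (Q (fm p)) ⌊(p : ℝ) ^ (1 / (r : ℝ))⌋₊ := by
    unfold V Vq
    apply Finset.prod_congr rfl
    intro q hq
    obtain ⟨hq1, hq2⟩ := mem_pz.1 hq
    have hqz : (q : ℝ) ≤ (p : ℝ) ^ (1 / (r : ℝ)) := (Nat.le_floor_iff (by positivity)).1 hq1
    have hqp : q < p := by
      have : (q : ℝ) < p := by linarith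
      exact_mod_cast this
    rw [nu_eq p q hpp hq2 hqp]
  have hW : W p r = Vq (Q (fm p)) ⌊(p : ℝ) ^ (1 / (r : ℝ))⌋₊ / Vz ⌊(p : ℝ) ^ (1 / (r : ℝ))⌋₊ := by
    rw [← hVq]
    unfold W V Vz
    rw [Finset.prod_div_distrib]
    rfl
  have hfull := h1 (fm p) 0 hus (by norm_num) (by
      intro q n hq hq1
      exact absurd (Nat.dvd_one.1 hq1) hq.one_lt.ne') ⟨0, fun n => by
      unfold fm
      rw [lf_eval]
      simp⟩ (h2 _ (fun q hq _ => nu_pos p q hq)) (by
      rw [Nat.cast_zero]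
      positivity)
  refine ⟨?_, ?_, ?_, ?_⟩
  · intro k hk0 hk hg
    constructor
    · refine few_of_rough ((p : ℝ) ^ (1 / (r : ℝ))) (by linarith) k (r + 1) (by omega) ?_ ?_
      · rw [pow_succ, hpow]
        have h4 : (k : ℝ) ≤ 2 * p + 2 := by
          have : k ≤ 2 * p + 2 := by omega
          exact_mod_cast this
        have h5 : (p : ℝ) * 9 ≤ p * (p : ℝ) ^ (1 / (r : ℝ)) :=
          mul_le_mul_of_nonneg_left h9.le (by linarith)
        linarith
      · intro q hq hqk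
        by_contra hcon
        rw [not_lt] at hcon
        exact (hg q hq hcon).1 hqk
    · refine few_of_rough ((p : ℝ) ^ (1 / (r : ℝ))) (by linarith) (2 * k * p + 1) (2 * r + 1)
        (by omega) ?_ ?_
      · rw [pow_succ, mul_comm 2 r, pow_mul, hpow]
        have h4 : (2 * k * p + 1 : ℕ) ≤ 9 * p ^ 2 := by
          have h6 : k ≤ 2 * p + 1 := by omega
          have h7 : 2 * k * p ≤ 2 * (2 * p + 1) * p := by
            apply Nat.mul_le_mul_right
            omega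
          have h8 : 2 * (2 * p + 1) * p + 1 ≤ 9 * p ^ 2 := by
            have : p * 1000 ≤ p * p := Nat.mul_le_mul_left p hp1000
            nlinarith
          omega
        have h5 : ((2 * k * p + 1 : ℕ) : ℝ) ≤ 9 * (p : ℝ) ^ 2 := by exact_mod_cast h4
        have h6 : (p : ℝ) ^ 2 * 9 ≤ (p : ℝ) ^ 2 * (p : ℝ) ^ (1 / (r : ℝ)) :=
          mul_le_mul_of_nonneg_left h9.le (by positivity)
        linarith
      · intro q hq hqk
        by_contra hcon
        rw [not_lt] at hcon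
        exact (hg q hq hcon).2 hqk
  · intro k hk hk2 hkz q hq hqz
    constructor
    · intro hd
      rw [(Nat.prime_dvd_prime_iff_eq hq hk).1 hd] at hqz
      linarith
    · intro hd
      have h4 := (Nat.prime_dvd_prime_iff_eq hq hk2).1 hd
      rw [h4] at hqz
      have h5 : p < 2 * k * p + 1 := by
        have : 1 * p ≤ (2 * k) * p := Nat.mul_le_mul_right p (by have := hk.pos; omega)
        omega
      have h6 : (p : ℝ) < ((2 * k * p + 1 : ℕ) : ℝ) := by exact_mod_cast h5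
      linarith
  · rw [hW]
    exact div_pos (Vq_pos _ (us_adm hus) _) (Pool.Agent.Y879.PR.Vz_pos _)
  · intro X u Y hX hY huY
    have h4 := hfull X hX u Y hY huY
    rw [← pr_eq, ← hW, ← hVq] at h4
    refine ⟨h4.1, ?_⟩
    intro T hT B
    have h5 := h4.2 T hT B
    rw [← goodf] at h5
    exact h5

end Pool.Agent.Results.MP_2f88e5_nt.PrimeMultipliers
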