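import Pool.Agent.Y816.PD.UniL

set_option autoImplicit false

/-!
# Almost primes `2 k p + 1` with admissible `k` whose digits are restricted, for all large primes `p`

The integers `k < b ^ K`, `K = log_b p` (integer part), whose `i`-th digit in base `b` belongs to an arbitrary set
`A i` for all `i < K` are considered, the product of the `|A i|` being at least `exp (- c K) b ^ K`.
-/

namespace Pool.Agent.Results.MP_2f88e5_nt.RestrictedDigits

open Finset Filter Polynomial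
open Pool.Agent.Y816.PD (ND NA Alm Rgh WG)

/-- `2 k p + 1` -/
def G (p k : ℕ) : ℤ := 2 * (k : ℤ) * p + 1

lemma G_eq (p k : ℕ) : G p k = ((2 * k * p + 1 : ℕ) : ℤ) := by
  unfold G
  push_cast
  ring

/-- **Almost primes `2 k p + 1` with admissible `k` whose digits are restricted.** -/
theorem result :
    ∃ c : ℝ, 0 < c ∧ ∃ r₀ : ℕ, 2 ≤ r₀ ∧ ∀ r : ℕ, r₀ ≤ r →
      (∀ p k : ℕ, 0 < p → (2 * k * p + 1).Prime → k ∈ Rgh (G p) r) ∧
      ∀ b : ℕ, 2 ≤ b → ∃ κ C : ℝ, 0 < κ ∧ 0 < C ∧ ∀ᶠ p : ℕ in atTop, p.Prime → ∀ K : ℕ, K = Nat.log b p →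
        ∀ A : ℕ → Finset ℕ, (∀ i < K, A i ⊆ range b) → (b : ℝ) ^ K ≤ Real.exp (c * K) * NA K A →
        ((∃ d ∈ A 0, (2 * d * p + 1).Coprime b) → (∃ d ∈ A (K - 1), d ≠ 0) →
          κ * NA K A * WG (G p) (b ^ K) ≤
            ND b K A {k | (1 ≤ k ∧ k < 2 * (p + 1) ∧ ¬ p ∣ k) ∧ k ∈ Alm (G p) r (b ^ K)}) ∧
        (ND b K A (Rgh (G p) r) : ℝ) ≤ C * NA K A * WG (G p) (b ^ K) := by
  obtain ⟨c, hc, r₀, hr₀, h⟩ := Pool.Agent.Y816.PD.uni_top 1 4 (by norm_num)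
  refine ⟨c, hc, r₀, hr₀, fun r hr => ⟨fun p k hp0 h1 l hl hd => ?_, fun b hb => ?_⟩⟩
  · have h2r : 2 ≤ r := hr₀.trans hr
    rw [G_eq, Int.natCast_dvd_natCast] at hd
    refine Pool.Agent.Y816.PD.lt_pow_of_le hl ?_ h2r
    rw [(Nat.prime_dvd_prime_iff_eq hl h1).1 hd]
    nlinarith
  · obtain ⟨κ, C₁, hκ, hC, h1⟩ := h r hr b hb
    refine ⟨κ, C₁, hκ, hC, ?_⟩
    obtain ⟨K0, hK0⟩ := eventually_atTop.1 h1
    filter_upwards [eventually_ge_atTop (b ^ (K0 + 5))] with p hn hp K hK A hA hprod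
    have hp0 := hp.pos
    have hKK : K0 + 5 ≤ K := by
      rw [hK]
      exact Nat.le_log_of_pow_le (by omega) hn
    have hb1 : b ^ K ≤ p := by
      rw [hK]
      exact Nat.pow_log_le_self b (by omega)
    have hb2 : p < b ^ (K + 1) := by
      rw [hK]
      exact Nat.lt_pow_succ_log_self (by omega) _
    have hpoly : ∃ P : ℤ[X], P.natDegree ≤ 1 ∧ ∀ k : ℕ, P.eval (k : ℤ) = G p k := by
      refine ⟨C (2 * (p : ℤ)) * X + C 1, ?_, fun k => ?_⟩
      · compute_degree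
      · unfold G
        simp only [eval_mul, eval_add, eval_X, eval_C]
        ring
    have hadm : ∀ l : ℕ, l.Prime → ∃ k : ℕ, ¬ (l : ℤ) ∣ G p k := by
      intro l hl
      refine ⟨0, fun hd => ?_⟩
      rw [G_eq, Int.natCast_dvd_natCast] at hd
      simp only [mul_zero, zero_mul, zero_add] at hd
      exact hl.one_lt.ne' (Nat.dvd_one.1 hd)
    have hsize : ∀ k : ℕ, k < b ^ K → (G p k).natAbs ≤ b ^ (4 * K) := by
      intro k hk
      rw [G_eq, Int.natAbs_natCast]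
      have e1 : 2 * b ^ K ≤ b ^ (K + 1) := by
        rw [pow_succ, mul_comm]
        exact Nat.mul_le_mul_left _ hb
      have e2 : 1 ≤ b ^ (K + 1) * b ^ (K + 1) := Nat.mul_pos (by positivity) (by positivity)
      calc 2 * k * p + 1 ≤ b ^ (K + 1) * b ^ (K + 1) + b ^ (K + 1) * b ^ (K + 1) :=
            Nat.add_le_add (Nat.mul_le_mul (by omega) hb2.le) e2
        _ = 2 * (b ^ (K + 1) * b ^ (K + 1)) := by ring
        _ ≤ b * (b ^ (K + 1) * b ^ (K + 1)) := Nat.mul_le_mul_right _ hb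
        _ = b ^ (2 * K + 3) := by ring
        _ ≤ b ^ (4 * K) := Nat.pow_le_pow_right (by omega) (by omega)
    obtain ⟨h2, h3⟩ := hK0 K (by omega) (G p) hpoly hadm hsize A hA hprod
    refine ⟨fun hd htop => ?_, h3⟩
    obtain ⟨d, hd1, hd2⟩ := hd
    refine (h2 ⟨d, hd1, by rw [G_eq, Int.natAbs_natCast]; exact hd2⟩ htop).trans ?_
    apply Nat.cast_le.2
    apply Pool.Agent.Y816.PD.ND_mono'
    intro k hkK hk
    have h7 : 0 < b ^ (K - 1) := by positivity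
    have h8 : 1 ≤ k := lt_of_lt_of_le h7 hk.1
    refine ⟨⟨h8, by omega, fun hdv => ?_⟩, hk.2⟩
    have := Nat.le_of_dvd h8 hdv
    omega

end Pool.Agent.Results.MP_2f88e5_nt.RestrictedDigits
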